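import Pool.Agent.X233.GP.Opp

/-!
# Preprojective modules over graded right artinian rings are gradable

Right modules over a ring `R` are modules over `Rᵐᵒᵖ` (so `m r` is `MulOpposite.op r • m`).
A grading of `R` by `ℤ` is a family `𝒜 : ℤ → AddSubgroup R` with `GradedRing 𝒜` (Mathlib): `R` is the
direct sum of the `𝒜 i`, `1 ∈ 𝒜 0` and `𝒜 i * 𝒜 j ⊆ 𝒜 (i + j)`.  `R` is right artinian if
`IsArtinianRing Rᵐᵒᵖ`; nothing is assumed about the grading besides `GradedRing 𝒜`.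
-/

set_option autoImplicit false

namespace Pool.Agent.Results.MP_12d20c_al.PreprojectiveGradable

universe u

/-- The right `R`-module `M` is gradable: it is isomorphic, as an ungraded right module, to a right
module `N` that is the direct sum of additive subgroups `𝒩 i` (`i ∈ ℤ`) with
`𝒩 i * 𝒜 j ⊆ 𝒩 (i + j)`. -/
def Gradable {R : Type u} [Ring R] (𝒜 : ℤ → AddSubgroup R) (M : Type u) [AddCommGroup M]
    [Module Rᵐᵒᵖ M] : Prop :=
  ∃ (N : Type u) (_ : AddCommGroup N) (_ : Module Rᵐᵒᵖ N) (𝒩 : ℤ → AddSubgroup N),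
    DirectSum.IsInternal 𝒩 ∧
    (∀ i j : ℤ, ∀ n ∈ 𝒩 i, ∀ r ∈ 𝒜 j, MulOpposite.op r • n ∈ 𝒩 (i + j)) ∧
    Nonempty (M ≃ₗ[Rᵐᵒᵖ] N)

/-- `M` is isomorphic to a direct summand of `N`. -/
def IsSummandOf (S : Type u) [Ring S] (M N : Type u) [AddCommGroup M] [AddCommGroup N]
    [Module S M] [Module S N] : Prop :=
  ∃ (i : M →ₗ[S] N) (p : N →ₗ[S] M), p ∘ₗ i = LinearMap.id

/-- `M ∈ add(X)`: `M` is isomorphic to a direct summand of a finite direct sum of copies of `X`. -/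
def InAdd (S : Type u) [Ring S] (X M : Type u) [AddCommGroup X] [AddCommGroup M] [Module S X]
    [Module S M] : Prop :=
  ∃ n : ℕ, IsSummandOf S M (Fin n → X)

/-- `M` is indecomposable: `M ≠ 0` and `M` is not the direct sum of two nonzero submodules. -/
def Indecomposable (S : Type u) [Ring S] (M : Type u) [AddCommGroup M] [Module S M] : Prop :=
  Nontrivial M ∧ ∀ A B : Submodule S M, IsCompl A B → A = ⊥ ∨ B = ⊥

/-- The right `R`-module `Y` is preprojective: it is finitely presented and indecomposable, and there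
is a finitely presented right module `X` such that `Y ∉ add(X)` and, whenever `f : Z → Y` is an
epimorphism from a finitely presented module that does not split, `Z` has a nonzero direct summand
in `add(X)`. -/
def Preprojective (R : Type u) [Ring R] (Y : Type u) [AddCommGroup Y] [Module Rᵐᵒᵖ Y] : Prop :=
  Module.FinitePresentation Rᵐᵒᵖ Y ∧ Indecomposable Rᵐᵒᵖ Y ∧
  ∃ (X : Type u) (_ : AddCommGroup X) (_ : Module Rᵐᵒᵖ X),
    Module.FinitePresentation Rᵐᵒᵖ X ∧ ¬ InAdd Rᵐᵒᵖ X Y ∧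
    ∀ (Z : Type u) [AddCommGroup Z] [Module Rᵐᵒᵖ Z], Module.FinitePresentation Rᵐᵒᵖ Z →
      ∀ f : Z →ₗ[Rᵐᵒᵖ] Y, Function.Surjective f →
        (¬ ∃ s : Y →ₗ[Rᵐᵒᵖ] Z, f ∘ₗ s = LinearMap.id) →
        ∃ (W : Type u) (_ : AddCommGroup W) (_ : Module Rᵐᵒᵖ W),
          Nontrivial W ∧ InAdd Rᵐᵒᵖ X W ∧ IsSummandOf Rᵐᵒᵖ W Z

/-- **Every preprojective right module over a graded right artinian ring is gradable.** -/
theorem result (R : Type u) [Ring R] (𝒜 : ℤ → AddSubgroup R) [GradedRing 𝒜]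
    [IsArtinianRing Rᵐᵒᵖ] (Y : Type u) [AddCommGroup Y] [Module Rᵐᵒᵖ Y]
    (hY : Preprojective R Y) : Gradable 𝒜 Y := by
  obtain ⟨hYfp, hYi, X, _, _, hXfp, _, hXY⟩ := hY
  have hYf : Module.Finite Rᵐᵒᵖ Y := inferInstance
  have hXf : Module.Finite Rᵐᵒᵖ X := inferInstance
  obtain ⟨ℳ, h1, h2⟩ := X233.GP.main_left (𝒮 := X233.GP.opG 𝒜) (X := X) (Y := Y) hYi
    (fun Z _ _ hZ f hf hs => hXY Z (Module.finitePresentation_of_finite Rᵐᵒᵖ Z) f hf hs)
  refine ⟨Y, inferInstance, inferInstance, ℳ, h1, ?_, ⟨LinearEquiv.refl _ _⟩⟩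
  intro i j n hn r hr
  rw [add_comm]
  exact h2 j i (MulOpposite.op r) hr n hn

end Pool.Agent.Results.MP_12d20c_al.PreprojectiveGradable
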